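import Pool.Agent.Lib.MP_204515_an_QC.Mult

/-! Amplification for algebras with a central element `w` such that `wA` is dense, and the corner
direction for all C*-algebras. -/

set_option autoImplicit false

open scoped MultiplierAlgebra

namespace Pool.Agent.Lib.MP_204515_an_QC

open Pool.Agent.Lib.MP_204515_an Pool.Agent.Lib.MP_204515_an_NU

section Coe

variable {A : Type*} [NonUnitalCStarAlgebra A]

lemma ext_fst {m m' : 𝓜(ℂ, A)} (h : ∀ x, m.fst x = m'.fst x) : m = m' := by
  rw [← sub_eq_zero, ← norm_eq_zero, ← DoubleCentralizer.norm_fst, norm_eq_zero]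
  refine ContinuousLinearMap.ext fun x => ?_
  rw [DoubleCentralizer.sub_fst]
  simp [h x]

lemma coe_injective : Function.Injective (DoubleCentralizer.coeHom (𝕜 := ℂ) (A := A)) := by
  intro a b h
  have h1 : ∀ x, a * x = b * x := fun x => by
    have := congrArg (fun m : 𝓜(ℂ, A) => m.fst x) h
    exact this
  rw [← sub_eq_zero, ← CStarRing.mul_star_self_eq_zero_iff, sub_mul, h1, sub_self]

lemma coe_mul_eq (a : A) (b : 𝓜(ℂ, A)) :
    DoubleCentralizer.coeHom (𝕜 := ℂ) a * b = DoubleCentralizer.coeHom (𝕜 := ℂ) (b.snd a) := by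
  refine ext_fst fun x => ?_
  change a * b.fst x = b.snd a * x
  rw [b.central]

lemma coe_hereditary (a a' : A) (b : 𝓜(ℂ, A)) : ∃ c, DoubleCentralizer.coeHom (𝕜 := ℂ) c =
    DoubleCentralizer.coeHom (𝕜 := ℂ) a * b * DoubleCentralizer.coeHom (𝕜 := ℂ) a' :=
  ⟨b.snd a * a', by rw [coe_mul_eq, map_mul]⟩

lemma sum_entry {m : ℕ} {κ : Type*} (s : Finset κ) (F : κ → CStarMatrix (Fin m) (Fin m) A)
    (p q : Fin m) : (∑ k ∈ s, F k) p q = ∑ k ∈ s, F k p q := by
  classical
  induction s using Finset.induction_on with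
  | empty => simp
  | insert a s ha ih => rw [Finset.sum_insert ha, Finset.sum_insert ha, CStarMatrix.add_apply, ih]

variable [PartialOrder A] [StarOrderedRing A]

lemma rank_one {ι : Type*} [Fintype ι] [DecidableEq ι] (t : ι → A) :
    0 ≤ (CStarMatrix.ofMatrix fun i j => star (t i) * t j : CStarMatrix ι ι A) := by
  rw [gen_nonneg_iff]
  rcases isEmpty_or_nonempty ι with hι | ⟨⟨i0⟩⟩
  · exact ⟨0, CStarMatrix.ext fun i => (hι.false i).elim⟩
  · refine ⟨CStarMatrix.ofMatrix fun k j => if k = i0 then t j else 0, ?_⟩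
    refine CStarMatrix.ext fun i j => ?_
    rw [CStarMatrix.mul_apply, Finset.sum_eq_single i0]
    · change star (t i) * t j = star (if i0 = i0 then t i else 0) * (if i0 = i0 then t j else 0)
      rw [if_pos rfl, if_pos rfl]
    · intro b _ hb
      change star (if b = i0 then t i else 0) * (if b = i0 then t j else 0) = 0
      rw [if_neg hb, if_neg hb, mul_zero]
    · simp

lemma gram_nonneg {ι κ : Type*} [Fintype ι] [DecidableEq ι] [Fintype κ] (T : κ → ι → A) :
    0 ≤ (CStarMatrix.ofMatrix fun i j => ∑ k, star (T k i) * T k j : CStarMatrix ι ι A) := by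
  have h : (CStarMatrix.ofMatrix fun i j => ∑ k, star (T k i) * T k j : CStarMatrix ι ι A) =
      ∑ k, (CStarMatrix.ofMatrix fun i j => star (T k i) * T k j : CStarMatrix ι ι A) := by
    classical
    refine CStarMatrix.ext fun i j => ?_
    have h2 : ∀ s : Finset κ, (∑ k ∈ s, (CStarMatrix.ofMatrix fun i j => star (T k i) * T k j :
        CStarMatrix ι ι A)) i j = ∑ k ∈ s, star (T k i) * T k j := by
      intro s
      induction s using Finset.induction_on with
      | empty => simp
      | insert a s ha ih =>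
        rw [Finset.sum_insert ha, Finset.sum_insert ha, CStarMatrix.add_apply, ih]
        rfl
    rw [h2]
    rfl
  rw [h]
  exact Finset.sum_nonneg fun k _ => rank_one (T k)

/-- corner direction, for all C*-algebras -/
theorem inG_of_amp {m n : ℕ} (hm : 0 < m) {Γ : SimpleGraph (Fin n)}
    (h : InG (CStarMatrix (Fin m) (Fin m) A) Γ) : InG A Γ := by
  intro M hM
  set p0 : Fin m := ⟨0, hm⟩ with hp0
  set a : CStarMatrix (Fin n) (Fin n) (CStarMatrix (Fin m) (Fin m) A) :=
    CStarMatrix.ofMatrix fun i j => CStarMatrix.ofMatrix fun p q =>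
      if p = p0 ∧ q = p0 then M i j else 0 with ha
  obtain ⟨y, hy1, hy2⟩ := h a (by
    intro K hK
    obtain ⟨P, hP⟩ := (gen_nonneg_iff _).1 (hM K hK)
    rw [gen_nonneg_iff]
    refine ⟨CStarMatrix.ofMatrix fun i j => CStarMatrix.ofMatrix fun p q =>
      if p = p0 ∧ q = p0 then P i j else 0, ?_⟩
    refine CStarMatrix.ext fun i j => ?_
    refine CStarMatrix.ext fun p q => ?_
    rw [CStarMatrix.mul_apply, sum_entry]
    change (if p = p0 ∧ q = p0 then M i j else 0) = _
    have h1 : M i j = ∑ k, star (P k i) * P k j := by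
      have := congrFun (congrFun hP i) j
      rw [CStarMatrix.mul_apply] at this
      exact this
    by_cases hpq : p = p0 ∧ q = p0
    · rw [if_pos hpq, h1]
      refine Finset.sum_congr rfl fun k _ => ?_
      rw [CStarMatrix.mul_apply, Finset.sum_eq_single p0]
      · change _ = star (if p0 = p0 ∧ p = p0 then P k i else 0) *
          (if p0 = p0 ∧ q = p0 then P k j else 0)
        simp [hpq.1, hpq.2]
      · intro r _ hr
        change star (if r = p0 ∧ p = p0 then P k i else 0) *
          (if r = p0 ∧ q = p0 then P k j else 0) = 0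
        simp [hr]
      · simp
    · rw [if_neg hpq]
      symm
      refine Finset.sum_eq_zero fun k _ => ?_
      rw [CStarMatrix.mul_apply]
      refine Finset.sum_eq_zero fun r _ => ?_
      change star (if r = p0 ∧ p = p0 then P k i else 0) *
        (if r = p0 ∧ q = p0 then P k j else 0) = 0
      by_cases hp : p = p0
      · have hq : q ≠ p0 := fun hq => hpq ⟨hp, hq⟩
        simp [hq]
      · simp [hp])
  refine ⟨CStarMatrix.ofMatrix fun i j => y i j p0 p0, ?_, fun i j hij => ?_⟩
  · obtain ⟨P, hP⟩ := (gen_nonneg_iff _).1 hy1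
    have h0 := gram_nonneg (fun (k : Fin n × Fin m) (x : Fin n) => P k.1 x k.2 p0)
    convert h0 using 1
    refine CStarMatrix.ext fun i j => ?_
    change y i j p0 p0 = ∑ k : Fin n × Fin m, star (P k.1 i k.2 p0) * P k.1 j k.2 p0
    have h1 : y i j = ∑ k, star (P k i) * P k j := by
      have := congrFun (congrFun hP i) j
      rw [CStarMatrix.mul_apply] at this
      exact this
    rw [h1, sum_entry, Fintype.sum_prod_type]
    refine Finset.sum_congr rfl fun k _ => ?_
    rw [CStarMatrix.mul_apply]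
    rfl
  · change y i j p0 p0 = M i j
    rw [hy2 i j hij]
    change (if p0 = p0 ∧ p0 = p0 then M i j else 0) = M i j
    simp

/-- amplification for an algebra with a central element `w` such that `wA` is dense -/
theorem amp_of_central {w : A} (hws : star w = w) (hw : ∀ b, w * b = b * w)
    (hd : DenseRange fun c : A => w * c) {m n : ℕ} (hm : 0 < m) {Γ : SimpleGraph (Fin n)}
    (h : InG A Γ) : InG (CStarMatrix (Fin m) (Fin m) A) Γ := by
  let _ : PartialOrder 𝓜(ℂ, A) := CStarAlgebra.spectralOrder _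
  have : StarOrderedRing 𝓜(ℂ, A) := CStarAlgebra.spectralOrderedRing _
  have h1 : InG 𝓜(ℂ, A) Γ := inG_mult hws hw hd h
  have h2 : InG (CStarMatrix (Fin m) (Fin m) 𝓜(ℂ, A)) Γ := (unital 𝓜(ℂ, A) m hm n Γ).2 h1
  have : Nonempty (Fin m) := ⟨⟨0, hm⟩⟩
  set φ := DoubleCentralizer.coeHom (𝕜 := ℂ) (A := A) with hφdef
  set Φ : CStarMatrix (Fin m) (Fin m) A →⋆ₙₐ[ℂ] CStarMatrix (Fin m) (Fin m) 𝓜(ℂ, A) :=
    CStarMatrix.mapₙₐ φ with hΦ
  have hΦa : ∀ (M : CStarMatrix (Fin m) (Fin m) A) i j, Φ M i j = φ (M i j) := fun _ _ _ => rfl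
  have hinj : Function.Injective Φ := fun M N h => by
    refine CStarMatrix.ext fun i j => coe_injective ?_
    rw [← hφdef, ← hΦa, ← hΦa, h]
  have hh : ∀ (a a' : CStarMatrix (Fin m) (Fin m) A) (b : CStarMatrix (Fin m) (Fin m) 𝓜(ℂ, A)),
      ∃ c, Φ c = Φ a * b * Φ a' := by
    intro a a' b
    have h1 : ∀ i k l j, ∃ c, φ c = φ (a i k) * b k l * φ (a' l j) := fun i k l j =>
      coe_hereditary _ _ _
    choose c hc using h1
    refine ⟨CStarMatrix.ofMatrix fun i j => ∑ l, ∑ k, c i k l j, ?_⟩
    refine CStarMatrix.ext fun i j => ?_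
    rw [CStarMatrix.mul_apply]
    change φ (∑ l, ∑ k, c i k l j) = _
    rw [map_sum]
    refine Finset.sum_congr rfl fun l _ => ?_
    rw [map_sum, CStarMatrix.mul_apply, Finset.sum_mul]
    refine Finset.sum_congr rfl fun k _ => ?_
    rw [hc]
    rfl
  exact inG_of_hereditary Φ hinj hh h2

end Coe

end Pool.Agent.Lib.MP_204515_an_QC
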