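import Pool.Agent.Lib.MP_204515_an_QC.Quasi

/-! Hereditary subalgebras of C*-algebras whose centre contains an approximate unit. -/

set_option autoImplicit false

open scoped MultiplierAlgebra

namespace Pool.Agent.Lib.MP_204515_an_QC

open Pool.Agent.Lib.MP_204515_an Pool.Agent.Lib.MP_204515_an_NU

lemma p3_of_pathGraph (B : Type*) [CStarAlgebra B] [PartialOrder B] [StarOrderedRing B]
    (hP : InG B (SimpleGraph.pathGraph 3)) : P3 B := by
  refine p3_of_kg ((inG_iff_kg _).1 hP) (i := 0) (j := 1) (k := 2) ?_ ?_ ?_ ?_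
  · rw [SimpleGraph.pathGraph_adj]; decide
  · rw [SimpleGraph.pathGraph_adj]; decide
  · decide
  · rw [SimpleGraph.pathGraph_adj]; decide

/-- `G(M_m(C)) ⊆ G(M_m(T))` for a hereditary subalgebra `T` of a unital algebra `C` -/
lemma amp_hereditary {C T : Type*} [CStarAlgebra C] [PartialOrder C] [StarOrderedRing C]
    [NonUnitalCStarAlgebra T] [PartialOrder T] [StarOrderedRing T]
    (θ : T →⋆ₙₐ[ℂ] C) (hθ : Function.Injective θ)
    (hher : ∀ (a a' : T) (b : C), ∃ c, θ c = θ a * b * θ a') {m n : ℕ} (hm : 0 < m)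
    {Γ : SimpleGraph (Fin n)} (h2 : InG (CStarMatrix (Fin m) (Fin m) C) Γ) :
    InG (CStarMatrix (Fin m) (Fin m) T) Γ := by
  have : Nonempty (Fin m) := ⟨⟨0, hm⟩⟩
  set Φ : CStarMatrix (Fin m) (Fin m) T →⋆ₙₐ[ℂ] CStarMatrix (Fin m) (Fin m) C :=
    CStarMatrix.mapₙₐ θ with hΦ
  have hΦa : ∀ (M : CStarMatrix (Fin m) (Fin m) T) i j, Φ M i j = θ (M i j) := fun _ _ _ => rfl
  have hinj : Function.Injective Φ := fun M N h => by
    refine CStarMatrix.ext fun i j => hθ ?_
    rw [← hΦa, ← hΦa, h]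
  have hh : ∀ (a a' : CStarMatrix (Fin m) (Fin m) T) (b : CStarMatrix (Fin m) (Fin m) C),
      ∃ c, Φ c = Φ a * b * Φ a' := by
    intro a a' b
    have h1 : ∀ i k l j, ∃ c, θ c = θ (a i k) * b k l * θ (a' l j) := fun i k l j => hher _ _ _
    choose c hc using h1
    refine ⟨CStarMatrix.ofMatrix fun i j => ∑ l, ∑ k, c i k l j, ?_⟩
    refine CStarMatrix.ext fun i j => ?_
    rw [CStarMatrix.mul_apply]
    change θ (∑ l, ∑ k, c i k l j) = _
    rw [map_sum]
    refine Finset.sum_congr rfl fun l _ => ?_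
    rw [map_sum, CStarMatrix.mul_apply, Finset.sum_mul]
    refine Finset.sum_congr rfl fun k _ => ?_
    rw [hc]
    rfl
  exact inG_of_hereditary Φ hinj hh h2

lemma snd_mul {S : Type*} [NonUnitalCStarAlgebra S] (m : 𝓜(ℂ, S)) (x y : S) :
    m.snd (x * y) = x * m.snd y := by
  have h2 : ∀ z, m.snd z = star ((star m).fst (star z)) := fun z => by
    rw [DoubleCentralizer.star_fst, star_star, star_star]
  rw [h2, h2, star_mul, fst_mul, star_mul, star_star]

/-- a subalgebra `T` which is hereditary in `B` and contained in the ideal `S` of `B` is hereditary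
in the multiplier algebra of `S` -/
lemma her_mult {B S T : Type*} [NonUnitalCStarAlgebra B] [NonUnitalCStarAlgebra S]
    [NonUnitalCStarAlgebra T] [PartialOrder T] [StarOrderedRing T] (σ : S →⋆ₙₐ[ℂ] B)
    (hσ : Function.Injective σ) (τ : T →⋆ₙₐ[ℂ] S) (hτ : Function.Injective τ)
    (hher : ∀ (t t' : T) (b : B), ∃ c, σ (τ c) = σ (τ t) * b * σ (τ t')) (t t' : T)
    (m : 𝓜(ℂ, S)) : ∃ c, DoubleCentralizer.coeHom (𝕜 := ℂ) (τ c) =
      DoubleCentralizer.coeHom (𝕜 := ℂ) (τ t) * m * DoubleCentralizer.coeHom (𝕜 := ℂ) (τ t') := by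
  set ψ := DoubleCentralizer.coeHom (𝕜 := ℂ) (A := S) with hψ
  have hψi : Function.Injective ψ := coe_injective
  have hcl : IsClosed (Set.range (ψ.comp τ)) :=
    (NonUnitalStarAlgHom.isometry (ψ.comp τ) (hψi.comp hτ)).isClosedEmbedding.isClosed_range
  have hcont : Continuous (ψ.comp τ) :=
    (NonUnitalStarAlgHom.isometry (ψ.comp τ) (hψi.comp hτ)).continuous
  have h1 : star t ∈ closure (Set.range fun c => c * (t * star t)) :=
    mem_closure_of_le (mul_star_self_nonneg t) (by rw [star_star])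
  have h2 : (ψ.comp τ) (star (star t)) * m * ψ (τ t') ∈ closure (Set.range (ψ.comp τ)) := by
    refine map_mem_closure (f := fun x => (ψ.comp τ) (star x) * m * ψ (τ t')) ?_ h1 ?_
    · exact ((hcont.comp continuous_star).mul continuous_const).mul continuous_const
    · rintro _ ⟨c, rfl⟩
      obtain ⟨d, hd⟩ := hher (t * star t) t' (σ (m.snd (τ (star c))))
      refine ⟨d, ?_⟩
      change ψ (τ d) = ψ (τ (star (c * (t * star t)))) * m * ψ (τ t')
      have h3 : τ d = τ (t * star t) * m.snd (τ (star c)) * τ t' := hσ (by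
        rw [hd, ← map_mul, ← map_mul])
      rw [h3, star_mul, star_mul, star_star, map_mul τ (t * star t), hψ, coe_mul_eq, snd_mul,
        ← map_mul]
  rw [hcl.closure_eq, star_star] at h2
  obtain ⟨c, hc⟩ := h2
  exact ⟨c, hc⟩

variable {B : Type*} [NonUnitalCStarAlgebra B] [PartialOrder B] [StarOrderedRing B]

/-- Chordal graphs are in `G(M_m(A))` for a hereditary subalgebra `A` of `B`, if the centre of `B`
contains an approximate unit and the path with three vertices is in `G(B)`. -/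
theorem her_amp (hB : ∀ (a : B) (ε : ℝ), 0 < ε →
      ∃ e : B, (∀ b, e * b = b * e) ∧ ‖a - e * a‖ < ε) (hP : InG B (SimpleGraph.pathGraph 3))
    {A : Type*} [NonUnitalCStarAlgebra A] [PartialOrder A] [StarOrderedRing A]
    (φ : A →⋆ₙₐ[ℂ] B) (hφ : Function.Injective φ)
    (hher : ∀ (a a' : A) (b : B), ∃ c, φ c = φ a * b * φ a') {m n : ℕ} (hm : 0 < m)
    {Γ : SimpleGraph (Fin n)} (hE : Elim Γ) : InG (CStarMatrix (Fin m) (Fin m) A) Γ := by
  intro X hX
  obtain ⟨w, hw0, hw, hwx⟩ := exists_central hB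
    (fun t : Fin n × Fin n × Fin m × Fin m => φ (X t.1 t.2.1 t.2.2.1 t.2.2.2))
  have hws : star w = w := (IsSelfAdjoint.of_nonneg hw0).star_eq
  obtain ⟨v, hvs, hvv⟩ := gen_sqrt hw0
  have hv : v ∈ closure (Set.range fun c => w * c) := by
    have h1 : star v * v ≤ w := by rw [hvs, hvv]
    refine closure_mono ?_ (mem_closure_of_le hw0 h1)
    rintro _ ⟨c, rfl⟩
    exact ⟨c, hw c⟩
  set S : NonUnitalStarSubalgebra ℂ B := (rangeAlg w hws hw).topologicalClosure with hS
  have hSmem : ∀ x, x ∈ S ↔ x ∈ closure (Set.range fun c => w * c) := fun x => Iff.rfl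
  have hSc : IsClosed (S : Set B) := NonUnitalStarSubalgebra.isClosed_topologicalClosure _
  have hwS : w ∈ S := by
    have h1 := mul_mem_closure hw hv v
    rwa [hvv] at h1
  set w' : S := ⟨w, hwS⟩ with hw'
  have hd : DenseRange fun c : S => w' * c := by
    intro s
    rw [closure_subtype]
    have h1 : (s : B) ∈ closure (Set.range fun c => w * c) := (hSmem _).1 s.2
    rw [← closure_closure]
    refine closure_mono ?_ h1
    rintro _ ⟨a, rfl⟩
    have h2 : w * a = v * (v * a) := by rw [← mul_assoc, hvv]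
    simp only
    rw [h2]
    have h3 : ∀ u : B, u ∈ closure (Set.range fun c => w * c) → u * (v * a) ∈
        closure ((fun x : S => (x : B)) '' Set.range fun c : S => w' * c) := by
      intro u hu
      refine map_mem_closure (f := fun u => u * (v * a)) (continuous_mul_const (v * a)) hu ?_
      rintro _ ⟨c, rfl⟩
      have h4 : c * (v * a) ∈ S := mul_mem_closure hw (mem_closure_mul hv a) c
      refine ⟨w' * ⟨c * (v * a), h4⟩, ⟨_, rfl⟩, ?_⟩
      change w * (c * (v * a)) = w * c * (v * a)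
      exact (mul_assoc _ _ _).symm
    exact h3 v hv
  have : IsClosed (S : Set B) := hSc
  let _ : PartialOrder S := CStarAlgebra.spectralOrder S
  have : StarOrderedRing S := CStarAlgebra.spectralOrderedRing S
  let _ : PartialOrder 𝓜(ℂ, S) := CStarAlgebra.spectralOrder _
  have : StarOrderedRing 𝓜(ℂ, S) := CStarAlgebra.spectralOrderedRing _
  set σ : S →⋆ₙₐ[ℂ] B := NonUnitalStarSubalgebraClass.subtype S with hσdef
  have hσ : Function.Injective σ := Subtype.val_injective
  have h1 : InG S (SimpleGraph.pathGraph 3) := inG_ideal σ hσ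
    (fun a s => ⟨⟨a * s, mul_mem_closure hw s.2 a⟩, rfl⟩) hP
  have h2 : InG 𝓜(ℂ, S) (SimpleGraph.pathGraph 3) :=
    inG_mult (w := w') (Subtype.ext hws) (fun b => Subtype.ext (hw b)) hd h1
  have h3 : InG 𝓜(ℂ, S) Γ := (inG_iff_kg Γ).2 (kg_of_elim (p3_of_pathGraph _ h2) hE)
  have h4 : InG (CStarMatrix (Fin m) (Fin m) 𝓜(ℂ, S)) Γ := (unital 𝓜(ℂ, S) m hm n Γ).2 h3
  -- the part of `A` in the ideal
  have hφc : Continuous φ := (NonUnitalStarAlgHom.isometry φ hφ).continuous
  set T : NonUnitalStarSubalgebra ℂ A := S.comap φ with hT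
  have hTc : IsClosed (T : Set A) := hSc.preimage hφc
  have : IsClosed (T : Set A) := hTc
  let _ : PartialOrder T := CStarAlgebra.spectralOrder T
  have : StarOrderedRing T := CStarAlgebra.spectralOrderedRing T
  set ι : T →⋆ₙₐ[ℂ] A := NonUnitalStarSubalgebraClass.subtype T with hιdef
  have hι : Function.Injective ι := Subtype.val_injective
  set τ : T →⋆ₙₐ[ℂ] S := NonUnitalStarAlgHom.codRestrict (φ.comp ι) S
    (fun t => t.2) with hτdef
  have hτ : Function.Injective τ := fun t t' h => by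
    apply hι
    apply hφ
    exact congrArg (fun s : S => (s : B)) h
  have h5 : InG (CStarMatrix (Fin m) (Fin m) T) Γ := by
    refine amp_hereditary ((DoubleCentralizer.coeHom (𝕜 := ℂ) (A := S)).comp τ)
      (coe_injective.comp hτ) (fun t t' b => ?_) hm h4
    refine her_mult σ hσ τ hτ (fun t t' b => ?_) t t' b
    obtain ⟨c, hc⟩ := hher (ι t) (ι t') b
    have hcT : c ∈ T := by
      change φ c ∈ S
      rw [hc]
      exact mem_closure_mul (mem_closure_mul t.2 b) _
    exact ⟨⟨c, hcT⟩, hc⟩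
  exact amp_sub ι hι h5 X hX (fun i j p q => ⟨⟨_, hwx (i, j, p, q)⟩, rfl⟩)

end Pool.Agent.Lib.MP_204515_an_QC
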