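import Pool.Agent.Lib.MP_204515_an_QC.Amp

/-! Passing to an ideal. -/

set_option autoImplicit false

open scoped MultiplierAlgebra

namespace Pool.Agent.Lib.MP_204515_an_QC

open Pool.Agent.Lib.MP_204515_an Pool.Agent.Lib.MP_204515_an_NU

section Reflect

variable {C D : Type*} [NonUnitalCStarAlgebra C] [PartialOrder C] [StarOrderedRing C]
  [NonUnitalCStarAlgebra D] [PartialOrder D] [StarOrderedRing D]

lemma map_nonneg_of (Φ : C →⋆ₙₐ[ℂ] D) {x : C} (hx : 0 ≤ x) : 0 ≤ Φ x := by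
  obtain ⟨c, rfl⟩ := (gen_nonneg_iff _).1 hx
  rw [map_mul, map_star]
  exact star_mul_self_nonneg _

lemma nonneg_of_map (Φ : C →⋆ₙₐ[ℂ] D) (hΦ : Function.Injective Φ) {x : C} (hx : 0 ≤ Φ x) :
    0 ≤ x := by
  have hsa : IsSelfAdjoint x := by
    apply hΦ
    rw [map_star]
    exact (IsSelfAdjoint.of_nonneg hx).star_eq
  have hn : 0 ≤ x⁻ := CFC.negPart_nonneg x
  have hns : star x⁻ = x⁻ := (IsSelfAdjoint.of_nonneg hn).star_eq
  have h1 : x⁺ - x⁻ = x := CFC.posPart_sub_negPart x hsa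
  have h2 : x⁺ * x⁻ = 0 := CFC.posPart_mul_negPart x
  have h3 : x⁻ * x * x⁻ = - (x⁻ * x⁻ * x⁻) := by
    calc x⁻ * x * x⁻ = x⁻ * (x⁺ - x⁻) * x⁻ := by rw [h1]
      _ = x⁻ * (x⁺ * x⁻) - x⁻ * x⁻ * x⁻ := by noncomm_ring
      _ = _ := by rw [h2, mul_zero, zero_sub]
  have h4 : 0 ≤ Φ (x⁻ * x⁻ * x⁻) := by
    apply map_nonneg_of
    have := star_left_conjugate_nonneg hn x⁻
    rwa [hns] at this
  have h5 : 0 ≤ - Φ (x⁻ * x⁻ * x⁻) := by
    have := star_left_conjugate_nonneg hx (Φ x⁻)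
    rwa [← map_star, hns, ← map_mul, ← map_mul, h3, map_neg] at this
  have h6 : Φ (x⁻ * x⁻ * x⁻) = 0 := le_antisymm (by simpa using h5) h4
  have h7 : x⁻ * x⁻ * x⁻ = 0 := hΦ (by rw [h6, map_zero])
  have h8 : x⁻ * x⁻ = 0 := by
    rw [← CStarRing.star_mul_self_eq_zero_iff, star_mul, hns]
    calc x⁻ * x⁻ * (x⁻ * x⁻) = x⁻ * x⁻ * x⁻ * x⁻ := by noncomm_ring
      _ = 0 := by rw [h7, zero_mul]
  have h9 : x⁻ = 0 := by
    rw [← CStarRing.star_mul_self_eq_zero_iff, hns, h8]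
  rw [← h1, h9, sub_zero]
  exact CFC.posPart_nonneg x

end Reflect

section Ideal

variable {A S : Type*} [NonUnitalCStarAlgebra A] [PartialOrder A] [StarOrderedRing A]
  [NonUnitalCStarAlgebra S] [PartialOrder S] [StarOrderedRing S] {n m : ℕ}

/-- `G(A) ⊆ G(S)` for a closed ideal `S` of `A`. -/
theorem inG_ideal (φ : S →⋆ₙₐ[ℂ] A) (hφ : Function.Injective φ)
    (hid : ∀ (a : A) (s : S), ∃ c, φ c = a * φ s) {Γ : SimpleGraph (Fin n)} (h : InG A Γ) :
    InG S Γ := by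
  let _ : PartialOrder 𝓜(ℂ, A) := CStarAlgebra.spectralOrder _
  have : StarOrderedRing 𝓜(ℂ, A) := CStarAlgebra.spectralOrderedRing _
  set ψ := DoubleCentralizer.coeHom (𝕜 := ℂ) (A := A) with hψ
  have hψi : Function.Injective ψ := coe_injective
  intro a ha
  obtain ⟨y, hy0, hy⟩ := h (CStarMatrix.ofMatrix fun i j => φ (a i j)) (by
    intro K hK
    obtain ⟨P, hP⟩ := (gen_nonneg_iff _).1 (ha K hK)
    rw [gen_nonneg_iff]
    refine ⟨CStarMatrix.ofMatrix fun i j => φ (P i j), ?_⟩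
    refine CStarMatrix.ext fun i j => ?_
    rw [CStarMatrix.mul_apply]
    have h1 : a i j = ∑ k, star (P k i) * P k j := by
      have := congrFun (congrFun hP i) j
      rw [CStarMatrix.mul_apply] at this
      exact this
    change φ (a i j) = ∑ k, star (φ (P k i)) * φ (P k j)
    rw [h1, map_sum]
    refine Finset.sum_congr rfl fun k _ => ?_
    rw [map_mul, map_star])
  obtain ⟨P, hPs, hPP⟩ := gen_sqrt hy0
  have hst : ∀ k i, star (P k i) = P i k := fun k i => by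
    have := congrFun (congrFun hPs i) k
    exact this
  have hyP : ∀ i j, y i j = ∑ k, star (P k i) * P k j := fun i j => by
    rw [← hPP, CStarMatrix.mul_apply]
    exact Finset.sum_congr rfl fun k _ => by rw [hst]
  have hcol : ∀ i, ∑ k, star (P k i) * P k i = φ (a i i) := fun i => by
    rw [← hyP]
    exact hy i i (Or.inl rfl)
  have hle : ∀ k i, star (P k i) * P k i ≤ φ (a i i) := fun k i => by
    rw [← hcol]
    exact Finset.single_le_sum (f := fun k => star (P k i) * P k i)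
      (fun k _ => star_mul_self_nonneg _) (Finset.mem_univ k)
  have hle' : ∀ k i, star (ψ (P k i)) * ψ (P k i) ≤ (ψ.comp φ) (a i i) := fun k i => by
    have h1 := map_nonneg_of ψ (sub_nonneg.2 (hle k i))
    rw [map_sub, map_mul, map_star, sub_nonneg] at h1
    exact h1
  have hmem : ∀ k i, ∃ q, φ q = P k i := fun k i => by
    obtain ⟨q, hq⟩ := mem_range (ψ.comp φ) (hψi.comp hφ) (fun s s' b => by
      obtain ⟨c, hc⟩ := hid (b.snd (φ s)) s'
      refine ⟨c, ?_⟩
      change ψ (φ c) = ψ (φ s) * b * ψ (φ s')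
      rw [hψ, coe_mul_eq, hc, map_mul]) (hle' k i) (a' := a k k) (by
        have h1 := hle' i k
        rwa [← map_star, hst i k, ← hst k i, map_star] at h1)
    exact ⟨q, hψi hq⟩
  choose Q hQ using hmem
  refine ⟨star (CStarMatrix.ofMatrix Q) * CStarMatrix.ofMatrix Q, star_mul_self_nonneg _,
    fun i j hij => ?_⟩
  apply hφ
  have h1 : (star (CStarMatrix.ofMatrix Q) * CStarMatrix.ofMatrix Q :
      CStarMatrix (Fin n) (Fin n) S) i j = ∑ k, star (Q k i) * Q k j := by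
    rw [CStarMatrix.mul_apply]
    rfl
  rw [h1, map_sum]
  have h2 : y i j = φ (a i j) := hy i j hij
  rw [← h2, hyP]
  refine Finset.sum_congr rfl fun k _ => ?_
  rw [map_mul, map_star, hQ, hQ]

/-- completion of matrices over `M_m(A)` with entries in the subalgebra `S` -/
theorem amp_sub (φ : S →⋆ₙₐ[ℂ] A) (hφ : Function.Injective φ) {Γ : SimpleGraph (Fin n)}
    (h : InG (CStarMatrix (Fin m) (Fin m) S) Γ)
    (X : CStarMatrix (Fin n) (Fin n) (CStarMatrix (Fin m) (Fin m) A))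
    (hX : ∀ K : Finset (Fin n), Γ.IsClique (K : Set (Fin n)) → 0 ≤ principal X K)
    (hent : ∀ i j p q, ∃ s, φ s = X i j p q) :
    ∃ y : CStarMatrix (Fin n) (Fin n) (CStarMatrix (Fin m) (Fin m) A), 0 ≤ y ∧
      ∀ i j, (i = j ∨ Γ.Adj i j) → y i j = X i j := by
  choose s hs using hent
  set Φ : CStarMatrix (Fin m) (Fin m) S →⋆ₙₐ[ℂ] CStarMatrix (Fin m) (Fin m) A :=
    CStarMatrix.mapₙₐ φ with hΦ
  have hΦa : ∀ (M : CStarMatrix (Fin m) (Fin m) S) i j, Φ M i j = φ (M i j) := fun _ _ _ => rfl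
  have hinj : Function.Injective Φ := fun M N h => by
    refine CStarMatrix.ext fun i j => hφ ?_
    rw [← hΦa, ← hΦa, h]
  set x : CStarMatrix (Fin n) (Fin n) (CStarMatrix (Fin m) (Fin m) S) :=
    CStarMatrix.ofMatrix fun i j => CStarMatrix.ofMatrix fun p q => s i j p q with hx
  have hxX : ∀ i j, Φ (x i j) = X i j := fun i j => CStarMatrix.ext fun p q => hs i j p q
  obtain ⟨y, hy0, hy⟩ := h x (by
    intro K hK
    refine nonneg_of_map (CStarMatrix.mapₙₐ Φ : CStarMatrix K K (CStarMatrix (Fin m) (Fin m) S)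
      →⋆ₙₐ[ℂ] CStarMatrix K K (CStarMatrix (Fin m) (Fin m) A)) (fun M N h => ?_) ?_
    · refine CStarMatrix.ext fun i j => hinj ?_
      exact congrFun (congrFun h i) j
    · convert hX K hK using 1
      refine CStarMatrix.ext fun i j => ?_
      exact hxX i j)
  refine ⟨(CStarMatrix.mapₙₐ Φ : CStarMatrix (Fin n) (Fin n) (CStarMatrix (Fin m) (Fin m) S)
      →⋆ₙₐ[ℂ] CStarMatrix (Fin n) (Fin n) (CStarMatrix (Fin m) (Fin m) A)) y,
      map_nonneg_of _ hy0, fun i j hij => ?_⟩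
  change Φ (y i j) = X i j
  rw [hy i j hij, hxX]

end Ideal

end Pool.Agent.Lib.MP_204515_an_QC
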