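import Mathlib.Analysis.CStarAlgebra.Multiplier
import Mathlib.Analysis.Normed.Operator.Extend
import Pool.Agent.Lib.MP_204515_an_NU.Unit

/-! C*-algebras with a central element `w` such that `wA` is dense: `G(A)` is contained in `G` of
the multiplier algebra. -/

set_option autoImplicit false

open scoped MultiplierAlgebra

namespace Pool.Agent.Lib.MP_204515_an_QC

open Pool.Agent.Lib.MP_204515_an Pool.Agent.Lib.MP_204515_an_NU

section Core

variable {A : Type*} [NonUnitalCStarAlgebra A]

lemma eq_zero_of_forall_mul {d : A} (h : ∀ c : A, c * d = 0) : d = 0 :=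
  (CStarRing.star_mul_self_eq_zero_iff d).1 (h (star d))

lemma fst_mul (m : 𝓜(ℂ, A)) (x y : A) : m.fst (x * y) = m.fst x * y := by
  rw [← sub_eq_zero]
  refine eq_zero_of_forall_mul fun c => ?_
  rw [mul_sub, ← m.central, ← mul_assoc, ← mul_assoc, m.central, sub_self]

lemma star_fst_mul (m : 𝓜(ℂ, A)) (x u : A) : star (m.fst x) * u = star x * (star m).fst u := by
  have := (star m).central (star x) u
  rwa [DoubleCentralizer.star_snd, star_star] at this

/-- evaluation of the left multiplication -/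
noncomputable def ev (x : A) : 𝓜(ℂ, A) →+ A where
  toFun m := m.fst x
  map_zero' := by simp
  map_add' a b := by simp

lemma sum_fst {κ : Type*} (s : Finset κ) (F : κ → 𝓜(ℂ, A)) (x : A) :
    (∑ k ∈ s, F k).fst x = ∑ k ∈ s, (F k).fst x := map_sum (ev x) F s

lemma exists_div {w : A} (hw : ∀ b, w * b = b * w) (hd : DenseRange fun c : A => w * c) {P : A}
    {C : ℝ} (h1 : ∀ c, ‖P * c‖ ≤ C * ‖w * c‖) (h2 : ∀ c, ‖c * P‖ ≤ C * ‖w * c‖) :
    ∃ Q : 𝓜(ℂ, A), ∀ c, Q.fst (w * c) = P * c := by
  set e : A →ₗ[ℂ] A := LinearMap.mulLeft ℂ w with he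
  have hde : DenseRange e := hd
  set f1 : A →ₗ[ℂ] A := LinearMap.mulLeft ℂ P with hf1
  set f2 : A →ₗ[ℂ] A := LinearMap.mulRight ℂ P with hf2
  have e1 : ∀ c, f1.extendOfNorm e (w * c) = P * c := fun c =>
    LinearMap.extendOfNorm_eq hde ⟨C, h1⟩ c
  have e2 : ∀ c, f2.extendOfNorm e (w * c) = c * P := fun c =>
    LinearMap.extendOfNorm_eq hde ⟨C, h2⟩ c
  refine ⟨⟨(f1.extendOfNorm e, f2.extendOfNorm e), fun x y => ?_⟩, e1⟩
  refine DenseRange.induction_on₂ (p := fun x y => f2.extendOfNorm e x * y =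
    x * f1.extendOfNorm e y) hd ?_ ?_ x y
  · refine isClosed_eq ?_ ?_ <;> fun_prop
  · intro a b
    simp only [e1, e2]
    rw [mul_assoc, ← mul_assoc P, ← hw P, mul_assoc w, ← mul_assoc a, ← hw a, mul_assoc w]

lemma eq_of_sandwich {w : A} (hd : DenseRange fun c : A => w * c) {m m' : 𝓜(ℂ, A)}
    (h : ∀ d c, star (w * d) * m.fst (w * c) = star (w * d) * m'.fst (w * c)) : m = m' := by
  have h1 : ∀ c, m.fst (w * c) = m'.fst (w * c) := by
    intro c
    rw [← sub_eq_zero]
    refine eq_zero_of_forall_mul fun x => ?_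
    have h2 : ∀ y : A, star y * (m.fst (w * c) - m'.fst (w * c)) = 0 := by
      intro y
      refine DenseRange.induction_on (p := fun y => star y * (m.fst (w * c) - m'.fst (w * c)) = 0)
        hd y ?_ ?_
      · exact isClosed_eq (by fun_prop) continuous_const
      · intro d
        rw [mul_sub, h, sub_self]
    have := h2 (star x)
    rwa [star_star] at this
  have h3 : (m.fst : A → A) = m'.fst :=
    hd.equalizer m.fst.continuous m'.fst.continuous (funext h1)
  rw [← sub_eq_zero, ← norm_eq_zero, ← DoubleCentralizer.norm_fst, norm_eq_zero]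
  refine ContinuousLinearMap.ext fun x => ?_
  have := congrFun h3 x
  rw [DoubleCentralizer.sub_fst]
  simp [this]

theorem inG_mult [PartialOrder A] [StarOrderedRing A] [PartialOrder 𝓜(ℂ, A)]
    [StarOrderedRing 𝓜(ℂ, A)] {w : A} (hws : star w = w) (hw : ∀ b, w * b = b * w)
    (hd : DenseRange fun c : A => w * c) {n : ℕ} {Γ : SimpleGraph (Fin n)} (h : InG A Γ) :
    InG 𝓜(ℂ, A) Γ := by
  intro X hX
  obtain ⟨y, hy0, hy⟩ := h (CStarMatrix.ofMatrix fun i j => w * (X i j).fst w) (by
    intro K hK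
    obtain ⟨T, hT⟩ := (gen_nonneg_iff _).1 (hX K hK)
    rw [gen_nonneg_iff]
    refine ⟨CStarMatrix.ofMatrix fun k j => (T k j).fst w, ?_⟩
    refine CStarMatrix.ext fun i j => ?_
    rw [CStarMatrix.mul_apply]
    have h1 : X i j = ∑ k, star (T k i) * T k j := by
      have := congrFun (congrFun hT i) j
      rw [CStarMatrix.mul_apply] at this
      exact this
    change w * (X i j).fst w = ∑ k, star ((T k i).fst w) * (T k j).fst w
    rw [h1, sum_fst, Finset.mul_sum]
    refine Finset.sum_congr rfl fun k _ => ?_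
    rw [star_fst_mul, hws]
    rfl)
  obtain ⟨P, hPs, hPP⟩ := gen_sqrt hy0
  have hst : ∀ k i, star (P k i) = P i k := fun k i => by
    have := congrFun (congrFun hPs i) k
    exact this
  have hyP : ∀ i j, y i j = ∑ k, star (P k i) * P k j := fun i j => by
    rw [← hPP, CStarMatrix.mul_apply]
    exact Finset.sum_congr rfl fun k _ => by rw [hst]
  have hedge : ∀ i j, (i = j ∨ Γ.Adj i j) → ∑ k, star (P k i) * P k j = w * (X i j).fst w :=
    fun i j hij => by
      rw [← hyP]
      exact hy i j hij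
  have hle : ∀ k i, star (P k i) * P k i ≤ w * (X i i).fst w := fun k i => by
    rw [← hedge i i (Or.inl rfl)]
    exact Finset.single_le_sum (f := fun k => star (P k i) * P k i)
      (fun k _ => star_mul_self_nonneg _) (Finset.mem_univ k)
  set C : ℝ := ∑ i, ‖X i i‖ + 1 with hC
  have hC0 : ∀ i, ‖X i i‖ ≤ C := fun i => by
    have : ‖X i i‖ ≤ ∑ i, ‖X i i‖ := Finset.single_le_sum (f := fun i => ‖X i i‖)
      (fun i _ => norm_nonneg _) (Finset.mem_univ i)
    linarith
  have hC1 : 1 ≤ C := by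
    have : 0 ≤ ∑ i, ‖X i i‖ := Finset.sum_nonneg fun i _ => norm_nonneg _
    linarith
  have hn1 : ∀ k i c, ‖P k i * c‖ ≤ C * ‖w * c‖ := by
    intro k i c
    have h1 : star (P k i * c) * (P k i * c) ≤ star (w * c) * (X i i).fst (w * c) := by
      have h2 := star_left_conjugate_le_conjugate (hle k i) c
      have e1 : star (P k i * c) * (P k i * c) = star c * (star (P k i) * P k i) * c := by
        rw [star_mul]; simp only [mul_assoc]
      have e2 : star (w * c) * (X i i).fst (w * c) = star c * (w * (X i i).fst w) * c := by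
        rw [star_mul, hws, fst_mul]; simp only [mul_assoc]
      rw [e1, e2]
      exact h2
    have h3 := CStarAlgebra.norm_le_norm_of_nonneg_of_le (star_mul_self_nonneg _) h1
    rw [CStarRing.norm_star_mul_self] at h3
    have h4 : ‖star (w * c) * (X i i).fst (w * c)‖ ≤ ‖w * c‖ * (C * ‖w * c‖) := by
      refine (norm_mul_le _ _).trans ?_
      rw [norm_star]
      refine mul_le_mul_of_nonneg_left ?_ (norm_nonneg _)
      refine ((X i i).fst.le_opNorm _).trans ?_
      rw [DoubleCentralizer.norm_fst]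
      exact mul_le_mul_of_nonneg_right (hC0 i) (norm_nonneg _)
    have h5 : ‖P k i * c‖ ^ 2 ≤ (C * ‖w * c‖) ^ 2 := by
      have := norm_nonneg (w * c)
      nlinarith [mul_nonneg this this, mul_nonneg (mul_nonneg this this) (sub_nonneg.2 hC1)]
    exact abs_le_of_sq_le_sq' h5 (by positivity) |>.2
  have hn2 : ∀ k i c, ‖c * P k i‖ ≤ C * ‖w * c‖ := by
    intro k i c
    have h1 := hn1 i k (star c)
    rw [← hst k i, ← star_mul, norm_star] at h1
    have h2 : ‖w * star c‖ = ‖w * c‖ := by
      rw [← norm_star, star_mul, star_star, hws, hw]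
    rwa [h2] at h1
  have hQ : ∀ k i, ∃ Q : 𝓜(ℂ, A), ∀ c, Q.fst (w * c) = P k i * c := fun k i =>
    exists_div hw hd (hn1 k i) (hn2 k i)
  choose Q hQ using hQ
  refine ⟨star (CStarMatrix.ofMatrix Q) * CStarMatrix.ofMatrix Q, star_mul_self_nonneg _,
    fun i j hij => ?_⟩
  have h1 : (star (CStarMatrix.ofMatrix Q) * CStarMatrix.ofMatrix Q :
      CStarMatrix (Fin n) (Fin n) 𝓜(ℂ, A)) i j = ∑ k, star (Q k i) * Q k j := by
    rw [CStarMatrix.mul_apply]
    rfl
  rw [h1]
  refine eq_of_sandwich hd fun d c => ?_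
  have e1 : star (w * d) * (X i j).fst (w * c) = star d * (w * (X i j).fst w) * c := by
    rw [star_mul, hws, fst_mul]; simp only [mul_assoc]
  rw [e1, ← hedge i j hij, sum_fst, Finset.mul_sum, Finset.mul_sum, Finset.sum_mul]
  refine Finset.sum_congr rfl fun k _ => ?_
  change star (w * d) * (star (Q k i)).fst ((Q k j).fst (w * c)) = _
  rw [← star_fst_mul, hQ, hQ, star_mul]
  simp only [mul_assoc]

end Core

end Pool.Agent.Lib.MP_204515_an_QC
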