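import Pool.Agent.Lib.MP_204515_an_QC.Ideal

/-! C*-algebras in which the centre contains an approximate unit. -/

set_option autoImplicit false

open scoped MultiplierAlgebra

namespace Pool.Agent.Lib.MP_204515_an_QC

open Pool.Agent.Lib.MP_204515_an Pool.Agent.Lib.MP_204515_an_NU

section Closure

variable {A : Type*} [NonUnitalCStarAlgebra A]

/-- the range of the multiplication by a central selfadjoint element -/
def rangeAlg (w : A) (hws : star w = w) (hw : ∀ b, w * b = b * w) :
    NonUnitalStarSubalgebra ℂ A where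
  carrier := Set.range fun c => w * c
  add_mem' := by
    rintro _ _ ⟨a, rfl⟩ ⟨b, rfl⟩
    exact ⟨a + b, mul_add _ _ _⟩
  zero_mem' := ⟨0, mul_zero _⟩
  mul_mem' := by
    rintro _ _ ⟨a, rfl⟩ ⟨b, rfl⟩
    exact ⟨a * (w * b), (mul_assoc _ _ _).symm⟩
  smul_mem' := by
    rintro c _ ⟨a, rfl⟩
    exact ⟨c • a, mul_smul_comm _ _ _⟩
  star_mem' := by
    rintro _ ⟨a, rfl⟩
    exact ⟨star a, by simp only [star_mul, hws, hw]⟩

lemma mul_mem_closure {w : A} (hw : ∀ b, w * b = b * w) {x : A}
    (hx : x ∈ closure (Set.range fun c => w * c)) (a : A) :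
    a * x ∈ closure (Set.range fun c => w * c) := by
  refine map_mem_closure (continuous_const_mul a) hx ?_
  rintro _ ⟨c, rfl⟩
  refine ⟨a * c, ?_⟩
  simp only
  rw [← mul_assoc, hw, mul_assoc, hw, ← mul_assoc]

lemma mem_closure_mul {w x : A} (hx : x ∈ closure (Set.range fun c => w * c)) (a : A) :
    x * a ∈ closure (Set.range fun c => w * c) := by
  refine map_mem_closure (f := fun x => x * a) (continuous_mul_const a) hx ?_
  rintro _ ⟨c, rfl⟩
  exact ⟨c * a, (mul_assoc _ _ _).symm⟩

variable [PartialOrder A] [StarOrderedRing A]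

lemma mem_closure_of_le {α p : A} (hα : 0 ≤ α) (h : star p * p ≤ α) :
    p ∈ closure (Set.range fun c => c * α) := by
  let _ : PartialOrder 𝓜(ℂ, A) := CStarAlgebra.spectralOrder _
  have : StarOrderedRing 𝓜(ℂ, A) := CStarAlgebra.spectralOrderedRing _
  set ψ := DoubleCentralizer.coeHom (𝕜 := ℂ) (A := A) with hψ
  have hψi : Function.Injective ψ := coe_injective
  rw [Metric.mem_closure_iff]
  intro ε hε
  obtain ⟨X, hX, -, -⟩ := exists_approx (map_nonneg_of ψ hα) (ε := (ε / 2) ^ 2) (by positivity)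
  have h1 := map_nonneg_of ψ (sub_nonneg.2 h)
  rw [map_sub, map_mul, map_star, sub_nonneg] at h1
  have h2 := hX (ψ p) h1
  have h3 : ‖ψ p - ψ p * (X * ψ α)‖ ≤ ε / 2 := abs_le_of_sq_le_sq' h2 (by positivity) |>.2
  refine ⟨_, ⟨X.snd p, rfl⟩, ?_⟩
  rw [dist_eq_norm, ← (NonUnitalStarAlgHom.isometry ψ hψi).norm_map_of_map_zero (map_zero ψ)]
  have h4 : ψ (p - X.snd p * α) = ψ p - ψ p * (X * ψ α) := by
    rw [map_sub, map_mul, hψ, ← coe_mul_eq, mul_assoc]
  simp only
  rw [h4]
  linarith

end Closure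

variable {A : Type*} [NonUnitalCStarAlgebra A] [PartialOrder A] [StarOrderedRing A]

/-- a central element `w ≥ 0` such that the closure of `wA` contains given elements -/
lemma exists_central (hA : ∀ (a : A) (ε : ℝ), 0 < ε →
      ∃ e : A, (∀ b, e * b = b * e) ∧ ‖a - e * a‖ < ε) {ι : Type*} [Fintype ι] (x : ι → A) :
    ∃ w : A, 0 ≤ w ∧ (∀ b, w * b = b * w) ∧ ∀ i, x i ∈ closure (Set.range fun c => w * c) := by
  set a : A := ∑ i, x i * star (x i) with ha
  have ha0 : 0 ≤ a := Finset.sum_nonneg fun i _ => mul_star_self_nonneg _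
  have hxa : ∀ i, star (star (x i)) * star (x i) ≤ a := fun i => by
    rw [star_star]
    exact Finset.single_le_sum (f := fun i => x i * star (x i))
      (fun i _ => mul_star_self_nonneg _) (Finset.mem_univ i)
  have hE : ∀ k : ℕ, ∃ e : A, (∀ b, e * b = b * e) ∧ ‖a - e * a‖ < 1 / ((k : ℝ) + 1) := fun k =>
    hA a _ (by positivity)
  choose e he hea using hE
  have hes : ∀ k b, star (e k) * b = b * star (e k) := fun k b => by
    have := congrArg star (he k (star b))
    rwa [star_mul, star_mul, star_star, eq_comm] at this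
  obtain ⟨δ, hδ, c, hc, -⟩ := posSumOfEncodable (one_pos : (0:ℝ) < 1) ℕ
  set W : ℕ → ℝ := fun k => δ k / (1 + ‖e k‖ ^ 2) with hW
  have hW0 : ∀ k, 0 < W k := fun k => div_pos (hδ k) (by positivity)
  have hsum : Summable fun k => W k • (star (e k) * e k) := by
    refine Summable.of_norm_bounded hc.summable fun k => ?_
    rw [norm_smul, CStarRing.norm_star_mul_self, Real.norm_of_nonneg (hW0 k).le, hW]
    simp only
    rw [div_mul_eq_mul_div, div_le_iff₀ (by positivity)]
    have := (hδ k).le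
    nlinarith [norm_nonneg (e k)]
  have hnn : ∀ k, 0 ≤ W k • (star (e k) * e k) := fun k =>
    smul_nonneg (hW0 k).le (star_mul_self_nonneg _)
  set w : A := ∑' k, W k • (star (e k) * e k) with hwdef
  have hw0 : 0 ≤ w := tsum_nonneg hnn
  have hwk : ∀ k, W k • (star (e k) * e k) ≤ w := fun k => hsum.le_tsum k fun j _ => hnn j
  have hw : ∀ b, w * b = b * w := fun b => by
    rw [hwdef, ← hsum.tsum_mul_left, ← hsum.tsum_mul_right]
    refine tsum_congr fun k => ?_
    rw [smul_mul_assoc, mul_smul_comm, mul_assoc, he, ← mul_assoc, hes, mul_assoc]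
  refine ⟨w, hw0, hw, ?_⟩
  have hek : ∀ k, e k ∈ closure (Set.range fun c => w * c) := fun k => by
    have h1 : star (e k) * e k ≤ (W k)⁻¹ • w := by
      have h2 := smul_le_smul_of_nonneg_left (hwk k) (inv_nonneg.2 (hW0 k).le)
      rwa [smul_smul, inv_mul_cancel₀ (hW0 k).ne', one_smul] at h2
    refine closure_mono ?_ (mem_closure_of_le ((star_mul_self_nonneg _).trans h1) h1)
    rintro _ ⟨c, rfl⟩
    refine ⟨(W k)⁻¹ • c, ?_⟩
    simp only
    rw [mul_smul_comm, mul_smul_comm, hw]
  have haS : a ∈ closure (Set.range fun c => w * c) := by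
    rw [← closure_closure, Metric.mem_closure_iff]
    intro ε hε
    obtain ⟨k, hk⟩ := exists_nat_one_div_lt hε
    refine ⟨e k * a, ?_, ?_⟩
    · rw [he]
      exact mul_mem_closure hw (hek k) a
    · rw [dist_eq_norm]
      exact (hea k).trans hk
  intro i
  have h1 := mem_closure_of_le ha0 (hxa i)
  have h2 : star (x i) ∈ closure (Set.range fun c => w * c) := by
    rw [← closure_closure]
    refine closure_mono ?_ h1
    rintro _ ⟨c, rfl⟩
    exact mul_mem_closure hw haS c
  have hws : star w = w := (IsSelfAdjoint.of_nonneg hw0).star_eq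
  have h3 := (rangeAlg w hws hw).topologicalClosure.star_mem' (a := star (x i)) h2
  rw [star_star] at h3
  exact h3

/-- amplification for algebras whose centre contains an approximate unit -/
theorem quasi_amp (hA : ∀ (a : A) (ε : ℝ), 0 < ε →
      ∃ e : A, (∀ b, e * b = b * e) ∧ ‖a - e * a‖ < ε) {m n : ℕ} (hm : 0 < m)
    {Γ : SimpleGraph (Fin n)} (h : InG A Γ) : InG (CStarMatrix (Fin m) (Fin m) A) Γ := by
  intro X hX
  obtain ⟨w, hw0, hw, hwx⟩ := exists_central hA
    (fun t : Fin n × Fin n × Fin m × Fin m => X t.1 t.2.1 t.2.2.1 t.2.2.2)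
  have hws : star w = w := (IsSelfAdjoint.of_nonneg hw0).star_eq
  obtain ⟨v, hvs, hvv⟩ := gen_sqrt hw0
  have hv : v ∈ closure (Set.range fun c => w * c) := by
    have h1 : star v * v ≤ w := by rw [hvs, hvv]
    refine closure_mono ?_ (mem_closure_of_le hw0 h1)
    rintro _ ⟨c, rfl⟩
    exact ⟨c, hw c⟩
  set S : NonUnitalStarSubalgebra ℂ A := (rangeAlg w hws hw).topologicalClosure with hS
  have hSmem : ∀ x, x ∈ S ↔ x ∈ closure (Set.range fun c => w * c) := fun x => Iff.rfl
  have hSc : IsClosed (S : Set A) := NonUnitalStarSubalgebra.isClosed_topologicalClosure _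
  have hwS : w ∈ S := by
    have h1 := mul_mem_closure hw hv v
    rwa [hvv] at h1
  set w' : S := ⟨w, hwS⟩ with hw'
  have hd : DenseRange fun c : S => w' * c := by
    intro s
    rw [closure_subtype]
    have h1 : (s : A) ∈ closure (Set.range fun c => w * c) := (hSmem _).1 s.2
    rw [← closure_closure]
    refine closure_mono ?_ h1
    rintro _ ⟨a, rfl⟩
    have h2 : w * a = v * (v * a) := by rw [← mul_assoc, hvv]
    simp only
    rw [h2]
    have h3 : ∀ u : A, u ∈ closure (Set.range fun c => w * c) → u * (v * a) ∈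
        closure ((fun x : S => (x : A)) '' Set.range fun c : S => w' * c) := by
      intro u hu
      refine map_mem_closure (f := fun u => u * (v * a)) (continuous_mul_const (v * a)) hu ?_
      rintro _ ⟨c, rfl⟩
      have h4 : c * (v * a) ∈ S := mul_mem_closure hw (mem_closure_mul hv a) c
      refine ⟨w' * ⟨c * (v * a), h4⟩, ⟨_, rfl⟩, ?_⟩
      change w * (c * (v * a)) = w * c * (v * a)
      exact (mul_assoc _ _ _).symm
    exact h3 v hv
  have : IsClosed (S : Set A) := hSc
  let _ : PartialOrder S := CStarAlgebra.spectralOrder S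
  have : StarOrderedRing S := CStarAlgebra.spectralOrderedRing S
  set φ : S →⋆ₙₐ[ℂ] A := NonUnitalStarSubalgebraClass.subtype S with hφdef
  have hφ : Function.Injective φ := Subtype.val_injective
  have h1 : InG S Γ := inG_ideal φ hφ
    (fun a s => ⟨⟨a * s, mul_mem_closure hw s.2 a⟩, rfl⟩) h
  have h2 : InG (CStarMatrix (Fin m) (Fin m) S) Γ :=
    amp_of_central (w := w') (Subtype.ext hws) (fun b => Subtype.ext (hw b)) hd hm h1
  exact amp_sub φ hφ h2 X hX (fun i j p q => ⟨⟨_, hwx (i, j, p, q)⟩, rfl⟩)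

end Pool.Agent.Lib.MP_204515_an_QC
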